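import Mathlib.Analysis.InnerProductSpace.PiL2
import Mathlib.Topology.MetricSpace.Pseudo.Basic
import Mathlib.Tactic

/-!
# Dense sequences all of whose dense subsequences contain a rational distance (MP_9c82d2_co)
-/

namespace Pool.Agent.Results.MP_9c82d2_co.DenseNoIrrational

open Set Topology TopologicalSpace

/-- The Euclidean plane. -/
abbrev P : Type := EuclideanSpace ℝ (Fin 2)

/-- The open left half plane. -/
def L : Set P := {x | x 0 < 0}

/-- The `i`-th open vertical strip. -/
def D (i : ℕ) : Set P := {x | (i : ℝ) < x 0 ∧ x 0 < i + 1}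

/-- The points of the `i`-th strip at rational distance from `a`. -/
def R (i : ℕ) (a : P) : Set P := D i ∩ {x | ∃ q : ℚ, dist x a = q}

lemma continuous_coord : Continuous fun x : P => x 0 := by fun_prop

lemma isOpen_L : IsOpen L := isOpen_lt continuous_coord continuous_const

lemma isOpen_D (i : ℕ) : IsOpen (D i) :=
  (isOpen_lt continuous_const continuous_coord).inter
    (isOpen_lt continuous_coord continuous_const)

/-- The points at rational distance from `a` are dense. -/
lemma dense_rat_dist (a : P) : Dense {x : P | ∃ q : ℚ, dist x a = q} := by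
  intro x
  by_cases hxa : x = a
  · apply subset_closure
    exact ⟨0, by simp [hxa]⟩
  · -- move `x` along the ray from `a`
    have hpos : 0 < dist x a := dist_pos.2 hxa
    rw [Metric.mem_closure_iff]
    intro ε hε
    obtain ⟨q, hq1, hq2⟩ := exists_rat_btwn (show dist x a < dist x a + ε by linarith)
    have hn : ‖x - a‖ = dist x a := (dist_eq_norm x a).symm
    refine ⟨a + ((q : ℝ) / dist x a) • (x - a), ⟨q, ?_⟩, ?_⟩
    · rw [dist_eq_norm, add_sub_cancel_left, norm_smul, hn, Real.norm_eq_abs, abs_div,
        abs_of_pos hpos, abs_of_pos (hpos.trans hq1)]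
      field_simp
    · have e : x - (a + ((q : ℝ) / dist x a) • (x - a)) = (1 - (q : ℝ) / dist x a) • (x - a) := by
        rw [sub_smul, one_smul]
        abel
      have e2 : (1 - (q : ℝ) / dist x a) = -((q : ℝ) - dist x a) / dist x a := by
        field_simp
        ring
      rw [dist_eq_norm, e, norm_smul, hn, Real.norm_eq_abs, e2, abs_div, abs_neg,
        abs_of_pos hpos, abs_of_pos (sub_pos.2 hq1), div_mul_cancel₀ _ hpos.ne']
      linarith

/-- The union of the half plane and the strips is dense. -/
lemma dense_regions {C : Set P} (hC : IsClosed C) (hL : L ⊆ C) (hD : ∀ i, D i ⊆ C) : C = univ := by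
  rw [eq_univ_iff_forall]
  intro z
  rcases lt_or_ge (z 0) 0 with h | h
  · exact hL h
  · -- `z` is the limit of points of a strip
    set n : ℕ := ⌊z 0⌋₊ with hn
    have h1 : (n : ℝ) ≤ z 0 := Nat.floor_le h
    have h2 : z 0 < n + 1 := Nat.lt_floor_add_one _
    rw [← hC.closure_eq, Metric.mem_closure_iff]
    intro ε hε
    set t : ℝ := min (ε / 2) ((n + 1 - z 0) / 2) with ht
    have ht0 : 0 < t := lt_min (by linarith) (by linarith)
    have ht1 : t ≤ ε / 2 := min_le_left _ _
    have ht2 : t ≤ (n + 1 - z 0) / 2 := min_le_right _ _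
    refine ⟨z + EuclideanSpace.single 0 t, hD n ⟨?_, ?_⟩, ?_⟩
    · simp
      linarith
    · simp
      linarith
    · rw [dist_eq_norm]
      simp
      rw [abs_of_pos ht0]
      linarith

/-- **Main theorem.** There is a sequence of pairwise distinct points, dense in the plane, each of
whose dense subsequences has two terms at rational distance. -/
theorem result : ∃ x : ℕ → P, Function.Injective x ∧ Dense (range x) ∧
    ∀ k : ℕ → ℕ, StrictMono k → Dense (range fun j => x (k j)) →
      ∃ i j : ℕ, i ≠ j ∧ ∃ q : ℚ, dist (x (k i)) (x (k j)) = q := by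
  have hsep : ∀ s : Set P, ∃ t ⊆ s, t.Countable ∧ s ⊆ closure t := fun s =>
    (IsSeparable.of_separableSpace s).exists_countable_dense_subset
  obtain ⟨t0, ht0, ht0c, ht0d⟩ := hsep L
  have hLne : L.Nonempty := ⟨EuclideanSpace.single 0 (-1), by simp [L]⟩
  have ht0ne : t0.Nonempty := by
    obtain ⟨y, hy⟩ := hLne
    exact closure_nonempty_iff.1 ⟨y, ht0d hy⟩
  obtain ⟨a, ha⟩ := ht0c.exists_eq_range ht0ne
  choose t ht htc htd using fun i => hsep (R i (a i))
  set X : Set P := t0 ∪ ⋃ i, t i with hX
  have hXc : X.Countable := ht0c.union (countable_iUnion htc)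
  have hXd : Dense X := by
    rw [dense_iff_closure_eq]
    refine dense_regions isClosed_closure ?_ ?_
    · exact ht0d.trans (closure_mono subset_union_left)
    · intro i
      have h1 : R i (a i) ⊆ closure X :=
        (htd i).trans (closure_mono ((subset_iUnion t i).trans subset_union_right))
      have h2 : D i ⊆ closure (R i (a i)) := by
        have := (dense_rat_dist (a i)).open_subset_closure_inter (isOpen_D i)
        exact this
      exact h2.trans (closure_minimal h1 isClosed_closure)
  have hXinf : X.Infinite := by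
    intro hfin
    have h1 : closure X = X := hfin.isClosed.closure_eq
    rw [hXd.closure_eq] at h1
    rw [← h1] at hfin
    exact (infinite_univ (α := P)) hfin
  obtain ⟨e⟩ : Nonempty (ℕ ≃ X) := by
    have := hXc.to_subtype
    have := hXinf.to_subtype
    exact nonempty_equiv_of_countable
  refine ⟨fun n => (e n : P), fun i j h => e.injective (Subtype.ext h), ?_, ?_⟩
  · have : (range fun n => (e n : P)) = X := by
      ext z
      constructor
      · rintro ⟨n, rfl⟩
        exact (e n).2
      · intro hz
        exact ⟨e.symm ⟨z, hz⟩, by simp⟩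
    rw [this]
    exact hXd
  · intro k _ hk
    -- a term in the left half plane
    obtain ⟨y, hyL, ⟨i, hi⟩⟩ := hk.inter_open_nonempty L isOpen_L hLne
    have hyX : y ∈ X := by rw [← hi]; exact (e (k i)).2
    have hDL : ∀ m, ∀ z ∈ D m, ¬ z ∈ L := by
      intro m z hz hzL
      have h1 : (m : ℝ) < z 0 := hz.1
      have h2 : z 0 < 0 := hzL
      have h3 : (0 : ℝ) ≤ m := Nat.cast_nonneg m
      linarith
    have hDD : ∀ m m', ∀ z ∈ D m, z ∈ D m' → m = m' := by
      intro m m' z hz hz'
      have h1 : (m : ℝ) < z 0 := hz.1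
      have h2 : z 0 < m + 1 := hz.2
      have h3 : (m' : ℝ) < z 0 := hz'.1
      have h4 : z 0 < m' + 1 := hz'.2
      have h5 : (m : ℝ) < ((m' + 1 : ℕ) : ℝ) := by push_cast; linarith
      have h6 : (m' : ℝ) < ((m + 1 : ℕ) : ℝ) := by push_cast; linarith
      have h7 : m < m' + 1 := by exact_mod_cast h5
      have h8 : m' < m + 1 := by exact_mod_cast h6
      omega
    have hy0 : y ∈ t0 := by
      rcases hyX with h | h
      · exact h
      · obtain ⟨m, hm⟩ := mem_iUnion.1 h
        exact absurd hyL (hDL m y (ht m hm).1)
    rw [ha] at hy0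
    obtain ⟨m, hm⟩ := hy0
    -- a term in the strip with the same index
    have hDne : (D m).Nonempty := ⟨EuclideanSpace.single 0 ((m : ℝ) + 1 / 2), by
      constructor
      · simp
      · simp
        norm_num⟩
    obtain ⟨w, hwD, ⟨j, hj⟩⟩ := hk.inter_open_nonempty (D m) (isOpen_D m) hDne
    have hwX : w ∈ X := by rw [← hj]; exact (e (k j)).2
    have hwt : w ∈ t m := by
      rcases hwX with h | h
      · exact absurd (ht0 h) (hDL m w hwD)
      · obtain ⟨m', hm'⟩ := mem_iUnion.1 h
        have : m' = m := hDD m' m w (ht m' hm').1 hwD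
        rw [← this]
        exact hm'
    obtain ⟨q, hq⟩ := (ht m hwt).2
    refine ⟨j, i, ?_, q, ?_⟩
    · rintro rfl
      have : w = y := hj.symm.trans hi
      rw [this] at hwD
      exact hDL m y hwD hyL
    · have h1 : (e (k j) : P) = w := hj
      have h2 : (e (k i) : P) = y := hi
      show dist (e (k j) : P) (e (k i) : P) = q
      rw [h1, h2, ← hm]
      exact hq

end Pool.Agent.Results.MP_9c82d2_co.DenseNoIrrational
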